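import Pool.Agent.Q266.VG.Stm

/-!
# Project VG of helper266, jobs UNI and LEAD (helper277)
-/

set_option autoImplicit false

namespace Pool.Agent.Q277.VG

open scoped commutatorElement
open Pool.Agent.Q266.VG

theorem isN_pow {d : ℕ} {X : Mat d} (h : IsN d 1 X) (k : ℕ) : IsN d k (X ^ k) := by
  induction k with
  | zero =>
    rw [pow_zero]
    intro i j hij
    have h1 : i ≠ j := by
      rintro rfl
      simp at hij
    exact Matrix.one_apply_ne h1
  | succ k ih =>
    rw [pow_succ]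
    exact ih.mul h

/-- the inverse of a unit in `1 + N^k` -/
theorem isN_inv {d k : ℕ} (hk : 1 ≤ k) {G G' : Mat d} (hG : G * G' = 1) (h : IsN d k (G - 1)) :
    IsN d k (G' - 1) := by
  have h1 : ∀ n : ℕ, ∀ i : Fin d, d - (i : ℕ) ≤ n → ∀ j : Fin d, (j : ℕ) < i + k → (G' - 1) i j = 0 := by
    intro n
    induction n with
    | zero =>
      intro i hi
      have := i.isLt
      omega
    | succ n ih =>
      intro i hi j hj
      have h2 : G' - 1 = -(G - 1) - (G - 1) * (G' - 1) := by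
        have h3 : (G - 1) * (G' - 1) = G * G' - G - G' + 1 := by noncomm_ring
        rw [h3, hG]
        noncomm_ring
      have h4 : (G' - 1) i j = -(G - 1) i j - ∑ l, (G - 1) i l * (G' - 1) l j := by
        have h5 := congrFun (congrFun h2 i) j
        rw [Matrix.sub_apply (-(G - 1)), Matrix.neg_apply, Matrix.mul_apply] at h5
        exact h5
      rw [h4, h i j hj, neg_zero, zero_sub, neg_eq_zero]
      refine Finset.sum_eq_zero fun l _ => ?_
      by_cases hl : (l : ℕ) < i + k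
      · rw [h i l hl, zero_mul]
      · rw [ih l (by omega) j (by omega), mul_zero]
  intro i j hij
  exact h1 (d - i) i le_rfl j hij

theorem mul_sub_one {d : ℕ} (G H : Mat d) : G * H - 1 = (G - 1) * (H - 1) + (G - 1) + (H - 1) := by
  noncomm_ring

theorem isN_mul {d k : ℕ} {G H : Mat d} (h : IsN d k (G - 1)) (h' : IsN d k (H - 1)) :
    IsN d k (G * H - 1) := by
  rw [mul_sub_one]
  exact (((h.mul h').mono (by omega)).add h).add h'

/-- JOB UNI -/
theorem uni : S_UNI := by
  refine ⟨?_, ?_, ?_, ?_⟩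
  · intro d X hX
    have h1 : IsNilpotent X := ⟨d, (isN_pow hX d).eq_zero le_rfl⟩
    obtain ⟨g, hg⟩ := h1.isUnit_one_add
    exact ⟨g, hg⟩
  · intro d g k hk h
    exact isN_inv hk (G := (g : Mat d)) (Units.mul_inv g) h
  · intro α d ρ hρ w
    induction w using FreeGroup.induction_on with
    | C1 =>
      rw [map_one, Units.val_one, sub_self]
      exact IsN.zero d 1
    | of x => exact hρ x
    | inv_of x hx =>
      rw [map_inv]
      exact isN_inv le_rfl (Units.mul_inv _) hx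
    | mul x y hx hy =>
      rw [map_mul, Units.val_mul]
      exact isN_mul hx hy
  · intro α d a b ρ ha hb hρ w
    have hN1 : ∀ {g : Mat d} {n m : ZMod 7}, IsN d 2 (g - 1 - n • a - m • b) → IsN d 1 (g - 1) := by
      intro g n m h
      have h1 : g - 1 = (g - 1 - n • a - m • b) + n • a + m • b := by abel
      rw [h1]
      exact ((h.mono (by omega)).add (ha.smul n)).add (hb.smul m)
    induction w using FreeGroup.induction_on with
    | C1 =>
      refine ⟨0, 0, ?_⟩
      rw [map_one, Units.val_one, sub_self, zero_smul, zero_smul, sub_zero, sub_zero]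
      exact IsN.zero d 2
    | of x => exact hρ x
    | inv_of x hx =>
      obtain ⟨n, m, h⟩ := hx
      refine ⟨-n, -m, ?_⟩
      rw [map_inv]
      have hg := hN1 h
      have hi : IsN d 1 ((((ρ (FreeGroup.of x))⁻¹ : (Mat d)ˣ) : Mat d) - 1) :=
        isN_inv le_rfl (Units.mul_inv _) hg
      have h2 : (((ρ (FreeGroup.of x))⁻¹ : (Mat d)ˣ) : Mat d) - 1 - (-n) • a - (-m) • b =
          -((ρ (FreeGroup.of x) : Mat d) - 1 - n • a - m • b) -
          ((ρ (FreeGroup.of x) : Mat d) - 1) * ((((ρ (FreeGroup.of x))⁻¹ : (Mat d)ˣ) : Mat d) - 1) := by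
        have h3 : ((ρ (FreeGroup.of x) : Mat d) - 1) * ((((ρ (FreeGroup.of x))⁻¹ : (Mat d)ˣ) : Mat d) - 1) =
            (ρ (FreeGroup.of x) : Mat d) * (((ρ (FreeGroup.of x))⁻¹ : (Mat d)ˣ) : Mat d) - (ρ (FreeGroup.of x) : Mat d) -
              (((ρ (FreeGroup.of x))⁻¹ : (Mat d)ˣ) : Mat d) + 1 := by noncomm_ring
        rw [h3, Units.mul_inv, neg_smul, neg_smul]
        abel
      rw [h2]
      exact h.neg.sub ((hg.mul hi).mono (by omega))
    | mul x y hx hy =>
      obtain ⟨n, m, h⟩ := hx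
      obtain ⟨n', m', h'⟩ := hy
      refine ⟨n + n', m + m', ?_⟩
      rw [map_mul, Units.val_mul, mul_sub_one, add_smul, add_smul]
      have h2 : ((ρ x : Mat d) - 1) * ((ρ y : Mat d) - 1) + ((ρ x : Mat d) - 1) + ((ρ y : Mat d) - 1) -
          (n • a + n' • a) - (m • b + m' • b) = ((ρ x : Mat d) - 1) * ((ρ y : Mat d) - 1) +
          ((ρ x : Mat d) - 1 - n • a - m • b) + ((ρ y : Mat d) - 1 - n' • a - m' • b) := by abel
      rw [h2]
      exact ((((hN1 h).mul (hN1 h')).mono (by omega)).add h).add h'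

/-- JOB LEAD -/
theorem lead : S_UNI → S_LEAD := by
  intro _ d r s g h hr hs hg hh
  have hgi : IsN d 1 (((g⁻¹ : (Mat d)ˣ) : Mat d) - 1) := isN_inv le_rfl (Units.mul_inv g) (hg.mono hr)
  have hhi : IsN d 1 (((h⁻¹ : (Mat d)ˣ) : Mat d) - 1) := isN_inv le_rfl (Units.mul_inv h) (hh.mono hs)
  have h1 : ((⁅g, h⁆ : (Mat d)ˣ) : Mat d) = (g : Mat d) * h * ((g⁻¹ : (Mat d)ˣ) : Mat d) * ((h⁻¹ : (Mat d)ˣ) : Mat d) := by
    rw [commutatorElement_def, Units.val_mul, Units.val_mul, Units.val_mul]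
  have h2 : (h : Mat d) * g * (((g⁻¹ : (Mat d)ˣ) : Mat d) * ((h⁻¹ : (Mat d)ˣ) : Mat d)) = 1 := by
    rw [mul_assoc, ← mul_assoc (g : Mat d), Units.mul_inv, one_mul, Units.mul_inv]
  have h3 : ((⁅g, h⁆ : (Mat d)ˣ) : Mat d) - 1 -
      (((g : Mat d) - 1) * ((h : Mat d) - 1) - ((h : Mat d) - 1) * ((g : Mat d) - 1)) =
      (((g : Mat d) - 1) * ((h : Mat d) - 1) - ((h : Mat d) - 1) * ((g : Mat d) - 1)) *
        (((g⁻¹ : (Mat d)ˣ) : Mat d) * ((h⁻¹ : (Mat d)ˣ) : Mat d) - 1) := by
    have h4 : ((g : Mat d) - 1) * ((h : Mat d) - 1) - ((h : Mat d) - 1) * ((g : Mat d) - 1) =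
        (g : Mat d) * h - (h : Mat d) * g := by noncomm_ring
    rw [h4, h1, mul_sub, sub_mul, h2, mul_one]
    simp only [mul_assoc]
  rw [h3]
  have h5 := isN_mul hgi hhi
  have h6 := ((hg.mul hh).sub ((hh.mul hg).mono (l := r + s) (by omega))).mul h5
  exact h6

end Pool.Agent.Q277.VG
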